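import Mathlib
import Pool.Agent.Helper32_ABCT.Stmts2
import Pool.Agent.Helper32_ABCT.Api4

/-! # GGEN: condition (G) for generic vertices -/

open MvPolynomial

namespace ABCT.H76

open FlatCell

section

variable {V : Type} {M : Finset (Finset ℕ)} {p : Finset ℕ → Fr V}

/-- the values of `f` divided by its monomials are Laurent monomials in the `p` -/
def HH (M : Finset (Finset ℕ)) (p : Finset ℕ → Fr V) (f : MvPolynomial V ℕ) : Prop :=
  ∀ μ ∈ f.support, eval₂ (Nat.castRingHom (Fr V)) xx f / lmono xx (zexp μ) ∈ Mon M p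

theorem lmono_zexp_add (a b : V →₀ ℕ) :
    lmono (xx : V → Fr V) (zexp (a + b)) = lmono xx (zexp a) * lmono xx (zexp b) := by
  classical
  rw [lmono_zexp, lmono_zexp, lmono_zexp, Finsupp.prod_add_index']
  · intro v; rw [pow_zero]
  · intro v m n; rw [pow_add]

theorem HH_mul (hp : ∀ I ∈ M, p I ≠ 0) {f g : MvPolynomial V ℕ} (hf : HH M p f) (hg : HH M p g) :
    HH M p (f * g) := by
  intro μ hμ
  rw [natpoly_support_mul] at hμ
  obtain ⟨a, ha, b, hb, rfl⟩ := hμ
  rw [eval₂_mul, lmono_zexp_add, ← div_mul_div_comm]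
  exact mon_mul hp (hf a ha) (hg b hb)

theorem HH_one : HH M p (1 : MvPolynomial V ℕ) := by
  classical
  intro μ hμ
  rw [mem_support_iff, coeff_one] at hμ
  have h0 : μ = 0 := by
    by_contra hne
    rw [if_neg (Ne.symm hne)] at hμ
    exact hμ rfl
  rw [h0, eval₂_one, lmono_zexp, Finsupp.prod_zero_index, div_one]
  exact mon_one

theorem HH_prod (hp : ∀ I ∈ M, p I ≠ 0) {ι : Type*} (s : Finset ι) (f : ι → MvPolynomial V ℕ)
    (hf : ∀ i ∈ s, HH M p (f i)) : HH M p (∏ i ∈ s, f i) := by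
  classical
  induction s using Finset.induction_on with
  | empty => rw [Finset.prod_empty]; exact HH_one
  | insert a s ha ih =>
    rw [Finset.prod_insert ha]
    exact HH_mul hp (hf a (Finset.mem_insert_self _ _))
      (ih fun i hi => hf i (Finset.mem_insert_of_mem hi))

theorem HH_X (v : V) : HH M p (X v : MvPolynomial V ℕ) := by
  classical
  intro μ hμ
  rw [support_X, Finset.mem_singleton] at hμ
  have h1 : (Finsupp.single v 1 : V →₀ ℕ).prod (fun v n => (xx v : Fr V) ^ n) = xx v := by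
    rw [Finsupp.prod_single_index] <;> simp
  rw [hμ, eval₂_X, lmono_zexp, h1, div_self (xx_ne_zero v)]
  exact mon_one

end

theorem ggen (hquo : GquoStmt) : GgenStmt := by
  classical
  intro l r hV I hI μ hμ
  obtain ⟨hnd, hr, hlen⟩ := hV
  let S : FlatCell := (Net.gen l r).flat
  have hwf := (wfStmt (Net.gen l r) ⟨hnd, hr, hlen⟩).1
  have hP0 : ∀ J ∈ S.M, S.P J ≠ 0 := fun J hJ => P_ne_zero S J ((hwf.ne J).2 hJ)
  let u : ℕ → S.F := fun h => if hh : h < l.length - 2 then
    (xx (Sum.inr (⟨h, hh⟩ : Fin (l.length - 2))) : Fr S.V) else 1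
  let c : ℕ → S.F := fun i => xx (Sum.inl i)
  have hu0 : ∀ h, h < l.length - 2 → PosF (u h) := by
    intro h hh
    have : u h = xx (Sum.inr (⟨h, hh⟩ : Fin (l.length - 2))) := dif_pos hh
    rw [this]
    exact PosF.x _
  have hsum : ∀ a b, a < b → b + 1 < l.length → ∑ h ∈ Finset.Ico a b, u h ≠ 0 := by
    intro a b hab hb
    refine (PosF.sum _ ⟨a, Finset.mem_Ico.2 ⟨le_rfl, hab⟩⟩ _ fun h hh => hu0 h ?_).ne_zero
    have := (Finset.mem_Ico.1 hh).2
    omega
  have hD : ∀ a b, b ≤ l.length - 2 →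
      eval₂ (Nat.castRingHom S.F) (fun h : Fin (l.length - 2) => (xx (Sum.inr h) : Fr S.V))
        (Net.D (l.length - 2) a b) = ∑ h ∈ Finset.Ico a b, u h := by
    intro a b hb
    unfold Net.D
    rw [eval₂_sum]
    simp only [eval₂_X]
    refine Finset.sum_bij' (fun h _ => h.1) (fun h hh => ⟨h, by
      have := (Finset.mem_Ico.1 hh).2; omega⟩) ?_ ?_ ?_ ?_ ?_
    · intro h hh
      exact Finset.mem_Ico.2 (Finset.mem_filter.1 hh).2
    · intro h hh
      exact Finset.mem_filter.2 ⟨Finset.mem_univ _, Finset.mem_Ico.1 hh⟩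
    · intro h _; rfl
    · intro h _; rfl
    · intro h _
      have : u h.1 = xx (Sum.inr (⟨h.1, h.2⟩ : Fin (l.length - 2))) := dif_pos h.2
      rw [this]
  have hprs : ∀ J, ∀ q ∈ Net.prs l J, q.1 < q.2 ∧ q.2 + 1 < l.length := by
    intro J q hq
    unfold Net.prs at hq
    rw [Finset.mem_filter, Finset.mem_product, Finset.mem_range, Finset.mem_range] at hq
    exact ⟨hq.2.1, by omega⟩
  have hPg : ∀ J ∈ S.M, Pg l r c u J = S.P J := by
    intro J hJ
    rw [P_eq]
    show _ = _ * eval₂ _ _ (if J ∈ (Net.gen l r).M then _ else 0)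
    have hJ' : J ∈ (Net.gen l r).M := hJ
    have hJ2 : J ∈ Finset.powersetCard r l.toFinset := hJ
    rw [if_pos hJ', Pg, if_pos hJ2]
    congr 1
    rw [← coe_eval₂Hom, map_prod]
    refine Finset.prod_congr rfl fun q hq => ?_
    have h2 := hprs J q hq
    rw [coe_eval₂Hom]
    exact (hD q.1 q.2 (by omega)).symm
  have hMon : Mon S.M (Pg l r c u) = Mon S.M S.P := mon_congr hPg
  have hquo' : ∀ a b h, a ≤ h → h < b → b + 1 < l.length →
      (∑ h ∈ Finset.Ico a b, u h) / u h ∈ Mon S.M S.P := by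
    intro a b h hah hhb hb
    have h1 := hquo S.F l r c u hnd hr hlen (fun i => xx_ne_zero _) hsum a b h (h + 1)
      (by omega) hb (by omega) (by omega)
    rw [← hMon]
    have h2 : ∑ k ∈ Finset.Ico h (h + 1), u k = u h := by
      rw [Nat.Ico_succ_singleton, Finset.sum_singleton]
    rw [h2] at h1
    exact h1
  -- the factors
  have hfac : ∀ a b, a < b → b + 1 < l.length →
      HH S.M S.P (rename Sum.inr (Net.D (l.length - 2) a b) : MvPolynomial S.V ℕ) := by
    intro a b hab hb μ hμ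
    obtain ⟨h, hh, rfl⟩ : ∃ h : Fin (l.length - 2), (a ≤ h.1 ∧ h.1 < b) ∧
        μ = Finsupp.single (Sum.inr h) 1 := by
      unfold Net.D at hμ
      rw [map_sum, mem_support_iff, coeff_sum] at hμ
      obtain ⟨h, hh, hne⟩ := Finset.exists_ne_zero_of_sum_ne_zero hμ
      rw [rename_X, coeff_X] at hne
      refine ⟨h, (Finset.mem_filter.1 hh).2, ?_⟩
      by_contra hcon
      exact hne (if_neg (Ne.symm hcon))
    have h1 : (Finsupp.single (Sum.inr h) 1 : S.V →₀ ℕ).prod (fun v n => (xx v : Fr S.V) ^ n) =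
        u h.1 := by
      have : u h.1 = xx (Sum.inr (⟨h.1, h.2⟩ : Fin (l.length - 2))) := dif_pos h.2
      rw [this, Finsupp.prod_single_index] <;> simp
    rw [lmono_zexp, h1, eval₂_rename]
    have h2 := hD a b (by omega)
    have h3 := hquo' a b h.1 hh.1 hh.2 hb
    rw [← h2] at h3
    exact h3
  have hpol : HH S.M S.P (S.pol I) := by
    unfold FlatCell.pol
    refine HH_mul hP0 (HH_prod hP0 _ _ fun i _ => HH_X _) ?_
    show HH S.M S.P (rename Sum.inr (if I ∈ (Net.gen l r).M then _ else 0))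
    have hI' : I ∈ (Net.gen l r).M := hI
    rw [if_pos hI', map_prod]
    refine HH_prod hP0 _ _ fun q hq => ?_
    have h2 := hprs I q hq
    exact hfac q.1 q.2 h2.1 h2.2
  exact hpol μ hμ

end ABCT.H76
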